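import Mathlib

namespace Pool.Agent.MP_b9d149_co

open scoped Pointwise

/-- The Bergman fan (max convention): the vectors `w` whose maximum on every circuit is attained
at least twice. -/
def bergmanFan {n : ℕ} (M : Matroid (Fin n)) : Set (Fin n → ℝ) :=
  {w | ∀ C, M.IsCircuit C →
    ∃ i ∈ C, ∃ j ∈ C, i ≠ j ∧ (∀ k ∈ C, w k ≤ w i) ∧ (∀ k ∈ C, w k ≤ w j)}

/-- A polyhedral fan: a finite set of finitely generated convex cones, closed under taking faces,
in which any two cones meet in a common face. -/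
structure IsPolyhedralFan {n : ℕ} (S : Set (PointedCone ℝ (Fin n → ℝ))) : Prop where
  finite : S.Finite
  fg : ∀ σ ∈ S, σ.FG
  face_mem : ∀ σ ∈ S, ∀ τ : PointedCone ℝ (Fin n → ℝ), τ.IsFaceOf σ → τ ∈ S
  inf_isFaceOf : ∀ σ ∈ S, ∀ τ ∈ S, (σ ⊓ τ).IsFaceOf σ

/-- The support of a fan. -/
def fanSupport {n : ℕ} (S : Set (PointedCone ℝ (Fin n → ℝ))) : Set (Fin n → ℝ) :=
  ⋃ σ ∈ S, (σ : Set (Fin n → ℝ))

/-- The lineality space: the largest subspace `L` with `σ + L = σ` for all cones `σ`. -/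
noncomputable def linealitySpace {n : ℕ} (S : Set (PointedCone ℝ (Fin n → ℝ))) :
    Submodule ℝ (Fin n → ℝ) :=
  sSup {L : Submodule ℝ (Fin n → ℝ) |
    ∀ σ ∈ S, (σ : Set (Fin n → ℝ)) + (L : Set (Fin n → ℝ)) = (σ : Set (Fin n → ℝ))}

/-- The dimension of a cone: the dimension of its linear span. -/
noncomputable def coneDim {n : ℕ} (σ : PointedCone ℝ (Fin n → ℝ)) : ℕ :=
  Module.finrank ℝ (Submodule.span ℝ (σ : Set (Fin n → ℝ)))

/-- `k`-connected through codimension one, for an `m`-dimensional fan: after deleting any set `D` of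
at most `k - 1` facets (`m`-dimensional cones) together with all ridges (`(m-1)`-dimensional cones)
lying in a deleted facet, any two remaining facets are joined by a sequence of remaining facets in
which consecutive members contain a common remaining ridge. -/
def ConnectedThroughCodimOne {n : ℕ} (S : Set (PointedCone ℝ (Fin n → ℝ))) (m k : ℕ) : Prop :=
  ∀ D : Finset (PointedCone ℝ (Fin n → ℝ)), (∀ τ ∈ D, τ ∈ S ∧ coneDim τ = m) → D.card < k →
    ∀ σ ∈ S, coneDim σ = m → σ ∉ D → ∀ σ' ∈ S, coneDim σ' = m → σ' ∉ D →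
      Relation.ReflTransGen
        (fun a b => (a ∈ S ∧ coneDim a = m ∧ a ∉ D) ∧ (b ∈ S ∧ coneDim b = m ∧ b ∉ D) ∧
          ∃ ρ ∈ S, coneDim ρ + 1 = m ∧ ρ ≤ a ∧ ρ ≤ b ∧ ∀ τ ∈ D, ¬ ρ ≤ τ) σ σ'

end Pool.Agent.MP_b9d149_co
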