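import Mathlib

set_option linter.unusedSectionVars false

namespace Pool.Agent.MP_b9d149_co

open Set Module

section Euclid

variable {V : Type*} [NormedAddCommGroup V] [NormedSpace ℝ V] [FiniteDimensional ℝ V]

/-- the complement of finitely many proper subspaces is dense -/
lemma dense_avoid {Z : Set (Submodule ℝ V)} (hZ : Z.Finite) (h : ∀ S ∈ Z, S ≠ ⊤) :
    Dense {x : V | ∀ S ∈ Z, x ∉ S} := by
  have : {x : V | ∀ S ∈ Z, x ∉ S} = ⋂₀ ((fun S : Submodule ℝ V => (S : Set V)ᶜ) '' Z) := by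
    ext x; simp
  rw [this]
  apply (hZ.image _).dense_sInter
  · rintro _ ⟨S, -, rfl⟩
    exact S.closed_of_finiteDimensional.isOpen_compl
  · rintro _ ⟨S, hS, rfl⟩
    rw [← interior_eq_empty_iff_dense_compl]
    by_contra hne
    exact h S hS (S.eq_top_of_nonempty_interior' (nonempty_iff_ne_empty.2 hne))

lemma ne_top_of_finrank_lt {S : Submodule ℝ V} (h : finrank ℝ S < finrank ℝ V) : S ≠ ⊤ := by
  rintro rfl
  simp at h

lemma finrank_sup_span_singleton_le (S : Submodule ℝ V) (x : V) :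
    finrank ℝ ↥(S ⊔ Submodule.span ℝ {x}) ≤ finrank ℝ S + 1 := by
  refine (Submodule.finrank_add_le_finrank_add_finrank _ _).trans ?_
  gcongr
  simpa using finrank_span_le_card (R := ℝ) ({x} : Set V)

lemma segment_avoid {Z : Set (Submodule ℝ V)} {U : Set V} (hU : Convex ℝ U) {x z : V}
    (hx : x ∈ U) (hz : z ∈ U) (hxZ : ∀ S ∈ Z, x ∉ S)
    (hzZ : ∀ S ∈ Z, z ∉ S ⊔ Submodule.span ℝ {x}) :
    segment ℝ x z ⊆ U ∩ {y | ∀ S ∈ Z, y ∉ S} := by
  intro y hy
  refine ⟨hU.segment_subset hx hz hy, fun S hS hyS => ?_⟩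
  obtain ⟨a, b, ha, hb, hab, rfl⟩ := hy
  rcases hb.eq_or_lt with rfl | hb
  · have : a = 1 := by linarith
    subst this
    exact hxZ S hS (by simpa using hyS)
  · apply hzZ S hS
    have : z = b⁻¹ • (a • x + b • z) - (b⁻¹ * a) • x := by
      rw [smul_add, smul_smul, smul_smul, inv_mul_cancel₀ hb.ne', one_smul]; abel
    rw [this]
    refine Submodule.sub_mem _ (Submodule.mem_sup_left (S.smul_mem _ hyS))
      (Submodule.mem_sup_right (Submodule.smul_mem _ _ (Submodule.mem_span_singleton_self x)))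

/-- an open convex set minus finitely many subspaces of codimension at least two is connected -/
lemma isPreconnected_convex_avoid {Z : Set (Submodule ℝ V)} (hZ : Z.Finite)
    (h : ∀ S ∈ Z, finrank ℝ S + 2 ≤ finrank ℝ V) {U : Set V} (hU : Convex ℝ U) (hUo : IsOpen U) :
    IsPreconnected (U ∩ {y | ∀ S ∈ Z, y ∉ S}) := by
  apply isPreconnected_of_forall_pair
  intro x hx y hy
  let Z' : Set (Submodule ℝ V) :=
    (fun S => S ⊔ Submodule.span ℝ {x}) '' Z ∪ (fun S => S ⊔ Submodule.span ℝ {y}) '' Z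
  have hZ' : Z'.Finite := (hZ.image _).union (hZ.image _)
  have hne : ∀ S ∈ Z', S ≠ ⊤ := by
    rintro _ (⟨S, hS, rfl⟩ | ⟨S, hS, rfl⟩)
    · exact ne_top_of_finrank_lt
        ((finrank_sup_span_singleton_le S x).trans_lt (by have := h S hS; omega))
    · exact ne_top_of_finrank_lt
        ((finrank_sup_span_singleton_le S y).trans_lt (by have := h S hS; omega))
  obtain ⟨z, hzU, hz⟩ := (dense_avoid hZ' hne).inter_open_nonempty U hUo ⟨x, hx.1⟩
  refine ⟨segment ℝ x z ∪ segment ℝ y z, union_subset ?_ ?_, Or.inl (left_mem_segment _ _ _),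
    Or.inr (left_mem_segment _ _ _), ?_⟩
  · exact segment_avoid hU hx.1 hzU hx.2 fun S hS => hz _ (Or.inl ⟨S, hS, rfl⟩)
  · exact segment_avoid hU hy.1 hzU hy.2 fun S hS => hz _ (Or.inr ⟨S, hS, rfl⟩)
  · exact IsPreconnected.union z (right_mem_segment _ _ _) (right_mem_segment _ _ _)
      (convex_segment x z).isPreconnected (convex_segment y z).isPreconnected

lemma exists_sep (τ : PointedCone ℝ V) (hτ : IsClosed (τ : Set V)) {p : V} (hp : p ∉ τ) :
    ∃ f : V →L[ℝ] ℝ, (∀ x ∈ τ, 0 ≤ f x) ∧ f p < 0 :=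
  ProperCone.hyperplane_separation_point (⟨τ, hτ⟩ : ProperCone ℝ V) hp

lemma exists_ker_notMem {ι : Type*} (J : Finset ι) (h : ι → V →L[ℝ] ℝ) (τ : PointedCone ℝ V)
    (hd : finrank ℝ τ.lineal + J.card < finrank ℝ V) :
    ∃ v : V, (∀ j ∈ J, h j v = 0) ∧ v ∉ τ := by
  let F : V →ₗ[ℝ] (J → ℝ) := LinearMap.pi fun j => (h j.1 : V →ₗ[ℝ] ℝ)
  have h1 := F.finrank_range_add_finrank_ker
  have h2 : finrank ℝ (LinearMap.range F) ≤ J.card := by
    simpa using Submodule.finrank_le (LinearMap.range F)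
  have h3 : ¬ LinearMap.ker F ≤ τ.lineal := fun hle => by
    have := Submodule.finrank_mono hle
    omega
  obtain ⟨v, hv, hvτ⟩ := SetLike.not_le_iff_exists.1 h3
  have hv' : ∀ j ∈ J, h j v = 0 := fun j hj => by
    simpa [F] using congrFun (LinearMap.mem_ker.1 hv) ⟨j, hj⟩
  by_cases hm : v ∈ τ
  · refine ⟨-v, fun j hj => by simp [hv' j hj], fun hn => hvτ ?_⟩
    exact PointedCone.mem_lineal.2 ⟨hm, hn⟩
  · exact ⟨v, hv', hm⟩

lemma exists_large (a b : ℝ) (hb : b < 0) : ∃ t : ℝ, 0 ≤ t ∧ a + t * b < 0 := by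
  refine ⟨(|a| + 1) / (-b), div_nonneg (by positivity) (by linarith), ?_⟩
  have : (|a| + 1) / (-b) * b = -(|a| + 1) := by
    field_simp [hb.ne]
  rw [this]
  have := le_abs_self a
  linarith

/-- few closed cones with small lineality do not cover the space -/
lemma exists_notMem_cones {ι : Type*} (τ : ι → PointedCone ℝ V) (ℓ : ℕ) (J : Finset ι)
    (hτ : ∀ i ∈ J, IsClosed (τ i : Set V)) (hℓ : ∀ i ∈ J, finrank ℝ (τ i).lineal ≤ ℓ)
    (hd : J.card + ℓ ≤ finrank ℝ V) : ∃ v : V, ∀ i ∈ J, v ∉ τ i := by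
  classical
  suffices H : ∃ h : ι → V →L[ℝ] ℝ, (∀ i ∈ J, ∀ x ∈ τ i, 0 ≤ h i x) ∧ ∃ u, ∀ i ∈ J, h i u < 0 by
    obtain ⟨h, h1, u, hu⟩ := H
    exact ⟨u, fun i hi hm => (h1 i hi u hm).not_gt (hu i hi)⟩
  induction J using Finset.induction_on with
  | empty => exact ⟨0, by simp, 0, by simp⟩
  | insert i J hi ih =>
    rw [Finset.card_insert_of_notMem hi] at hd
    obtain ⟨h, h1, u, hu⟩ := ih (fun j hj => hτ j (Finset.mem_insert_of_mem hj))
      (fun j hj => hℓ j (Finset.mem_insert_of_mem hj)) (by omega)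
    obtain ⟨v, hv, hvτ⟩ := exists_ker_notMem J h (τ i)
      (by have := hℓ i (Finset.mem_insert_self _ _); omega)
    obtain ⟨f, hf, hfv⟩ := exists_sep (τ i) (hτ i (Finset.mem_insert_self _ _)) hvτ
    obtain ⟨t, -, ht⟩ := exists_large (f u) (f v) hfv
    refine ⟨Function.update h i f, fun j hj => ?_, u + t • v, fun j hj => ?_⟩
    · rcases Finset.mem_insert.1 hj with rfl | hj
      · simpa using hf
      · have : j ≠ i := fun e => hi (e ▸ hj)
        simpa [this] using h1 j hj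
    · rcases Finset.mem_insert.1 hj with rfl | hj
      · simpa using ht
      · have : j ≠ i := fun e => hi (e ▸ hj)
        simpa [this, hv j hj] using hu j hj

lemma exists_notMem_cones_submodule {ι : Type*} (τ : ι → PointedCone ℝ V) (ℓ : ℕ) (J : Finset ι)
    (hτ : ∀ i ∈ J, IsClosed (τ i : Set V)) (hℓ : ∀ i ∈ J, finrank ℝ (τ i).lineal ≤ ℓ)
    (Λ : Submodule ℝ V) (hd : J.card + ℓ ≤ finrank ℝ Λ) : ∃ v ∈ Λ, ∀ i ∈ J, v ∉ τ i := by
  obtain ⟨v, hv⟩ := exists_notMem_cones (V := Λ) (fun i => (τ i).comap Λ.subtype) ℓ J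
    (fun i hi => (hτ i hi).preimage continuous_subtype_val)
    (fun i hi => by
      refine le_trans ?_ (hℓ i hi)
      have hle : ((τ i).comap Λ.subtype).lineal.map Λ.subtype ≤ (τ i).lineal := by
        rintro _ ⟨x, hx, rfl⟩
        have hx' := PointedCone.mem_lineal.1 hx
        exact PointedCone.mem_lineal.2 ⟨hx'.1, by simpa using hx'.2⟩
      rw [← Submodule.finrank_map_subtype_eq]
      exact Submodule.finrank_mono hle) hd
  exact ⟨v, v.2, fun i hi => hv i hi⟩

/-- Balinski-type statement in a vector space -/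
lemma isPreconnected_compl_cones {ι : Type*} [Fintype ι] (τ : ι → PointedCone ℝ V) (ℓ : ℕ)
    (hτ : ∀ i, IsClosed (τ i : Set V)) (hℓ : ∀ i, finrank ℝ (τ i).lineal ≤ ℓ)
    (hd : Fintype.card ι + ℓ < finrank ℝ V) {Z : Set (Submodule ℝ V)} (hZ : Z.Finite)
    (hZd : ∀ S ∈ Z, finrank ℝ S + 2 ≤ finrank ℝ V) :
    IsPreconnected ({x | ∀ i, x ∉ τ i} ∩ {y | ∀ S ∈ Z, y ∉ S}) := by
  classical
  set T : Set V := {x | ∀ i, x ∉ τ i} ∩ {y | ∀ S ∈ Z, y ∉ S} with hT
  have hdense : Dense {y : V | ∀ S ∈ Z, y ∉ S} :=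
    dense_avoid hZ fun S hS => ne_top_of_finrank_lt (by have := hZd S hS; omega)
  let U : (ι → V →L[ℝ] ℝ) → Set V := fun h => {x | ∀ i, h i x < 0}
  have hUo : ∀ h, IsOpen (U h) := fun h => by
    have : U h = ⋂ i, {x | h i x < 0} := by ext; simp [U]
    rw [this]
    exact isOpen_iInter_of_finite fun i => isOpen_lt (h i).continuous continuous_const
  have hUc : ∀ h, Convex ℝ (U h) := fun h => by
    have : U h = ⋂ i, {x | h i x < 0} := by ext; simp [U]
    rw [this]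
    exact convex_iInter fun i => convex_halfSpace_lt (h i).isLinear 0
  have hUp : ∀ h, IsPreconnected (U h ∩ {y | ∀ S ∈ Z, y ∉ S}) := fun h =>
    isPreconnected_convex_avoid hZ hZd (hUc h) (hUo h)
  have hUT : ∀ h : ι → V →L[ℝ] ℝ, (∀ i, ∀ x ∈ τ i, 0 ≤ h i x) →
      U h ∩ {y | ∀ S ∈ Z, y ∉ S} ⊆ T := fun h hh x hx =>
    ⟨fun i hm => (hh i x hm).not_gt (hx.1 i), hx.2⟩
  apply isPreconnected_of_forall_pair
  intro q hq p hp
  have key : ∀ J : Finset ι, ∃ h : ι → V →L[ℝ] ℝ, (∀ i, ∀ x ∈ τ i, 0 ≤ h i x) ∧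
      (∀ i ∈ J, h i p < 0) ∧ (U h).Nonempty ∧
      ∃ t, t ⊆ T ∧ q ∈ t ∧ U h ∩ {y | ∀ S ∈ Z, y ∉ S} ⊆ t ∧ IsPreconnected t := by
    intro J
    induction J using Finset.induction_on with
    | empty =>
      choose h h1 h2 using fun i => exists_sep (τ i) (hτ i) (hq.1 i)
      exact ⟨h, h1, by simp, ⟨q, h2⟩, _, hUT h h1, ⟨h2, hq.2⟩, Subset.rfl, hUp h⟩
    | insert i J hi ih =>
      obtain ⟨h, h1, h2, ⟨u, hu⟩, t, htT, hqt, hUt, ht⟩ := ih
      obtain ⟨v, hv, hvτ⟩ := exists_ker_notMem Finset.univ h (τ i)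
        (by have := hℓ i; simp only [Finset.card_univ]; omega)
      obtain ⟨f₀, hf₀, hf₀p⟩ := exists_sep (τ i) (hτ i) (hp.1 i)
      obtain ⟨f₁, hf₁, hf₁v⟩ := exists_sep (τ i) (hτ i) hvτ
      have hex : ∃ f : V →L[ℝ] ℝ, (∀ x ∈ τ i, 0 ≤ f x) ∧ f p < 0 ∧
          ∃ v' : V, (∀ j, h j v' = 0) ∧ f v' < 0 := by
        rcases lt_trichotomy (f₀ v) 0 with h0 | h0 | h0
        · exact ⟨f₀, hf₀, hf₀p, v, fun j => hv j (Finset.mem_univ _), h0⟩
        · obtain ⟨s, hs, hs'⟩ := exists_large (f₁ p) (f₀ p) hf₀p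
          refine ⟨f₁ + s • f₀, fun x hx => ?_, by simpa using hs', v,
            fun j => hv j (Finset.mem_univ _), by simpa [h0] using hf₁v⟩
          have := hf₀ x hx
          have := hf₁ x hx
          simp only [add_apply, smul_apply, smul_eq_mul]
          positivity
        · exact ⟨f₀, hf₀, hf₀p, -v, fun j => by simp [hv j (Finset.mem_univ _)], by simpa using h0⟩
      obtain ⟨f, hf, hfp, v', hv', hfv'⟩ := hex
      obtain ⟨s, -, hs⟩ := exists_large (f u) (f v') hfv'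
      let h' := Function.update h i f
      have h1' : ∀ j, ∀ x ∈ τ j, 0 ≤ h' j x := fun j => by
        by_cases hj : j = i
        · subst hj; simpa [h'] using hf
        · simpa [h', hj] using h1 j
      have hw : u + s • v' ∈ U h ∩ U h' := by
        have hw1 : ∀ j, h j (u + s • v') < 0 := fun j => by simpa [hv' j] using hu j
        refine ⟨hw1, fun j => ?_⟩
        by_cases hj : j = i
        · subst hj; simpa [h'] using hs
        · simpa [h', hj] using hw1 j
      obtain ⟨w, hwU, hwZ⟩ := hdense.inter_open_nonempty _ ((hUo h).inter (hUo h')) ⟨_, hw⟩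
      refine ⟨h', h1', fun j hj => ?_, ⟨_, hw.2⟩, t ∪ (U h' ∩ {y | ∀ S ∈ Z, y ∉ S}),
        union_subset htT (hUT h' h1'), Or.inl hqt, subset_union_right,
        IsPreconnected.union w (hUt ⟨hwU.1, hwZ⟩) ⟨hwU.2, hwZ⟩ ht (hUp h')⟩
      rcases Finset.mem_insert.1 hj with rfl | hj
      · simpa [h'] using hfp
      · have : j ≠ i := fun e => hi (e ▸ hj)
        simpa [h', this] using h2 j hj
  obtain ⟨h, -, h2, -, t, htT, hqt, hUt, ht⟩ := key Finset.univ
  exact ⟨t, htT, hqt, hUt ⟨fun i => h2 i (Finset.mem_univ _), hp.2⟩, ht⟩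

end Euclid

section Algebraic

variable {V : Type*} [AddCommGroup V] [Module ℝ V]

/-- a convex cone not contained in any of finitely many subspaces is not covered by them -/
lemma exists_mem_cone_avoid (σ : PointedCone ℝ V) {Z : Set (Submodule ℝ V)} (hZ : Z.Finite)
    (h : ∀ S ∈ Z, ¬ (σ : Set V) ⊆ S) : ∃ x ∈ σ, ∀ S ∈ Z, x ∉ S := by
  induction Z, hZ using Set.Finite.induction_on with
  | empty => exact ⟨0, σ.zero_mem, by simp⟩
  | @insert S₀ Z _ hZ ih =>
    obtain ⟨x, hx, hxZ⟩ := ih fun S hS => h S (mem_insert_of_mem _ hS)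
    obtain ⟨y, hy, hyS⟩ := not_subset.1 (h S₀ (mem_insert _ _))
    have hfin : ∀ S ∈ insert S₀ Z, {t : ℝ | x + t • y ∈ S}.Subsingleton := by
      intro S hS a ha b hb
      by_contra hab
      have hy' : y ∈ S := by
        have h1 : (a - b) • y ∈ S := by
          have := S.sub_mem ha hb
          convert this using 1
          rw [sub_smul]; abel
        have := S.smul_mem (a - b)⁻¹ h1
        rwa [smul_smul, inv_mul_cancel₀ (sub_ne_zero.2 hab), one_smul] at this
      rcases hS with rfl | hS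
      · exact hyS hy'
      · apply hxZ S hS
        have := S.sub_mem ha (S.smul_mem a hy')
        simpa using this
    have hbad : (⋃ S ∈ insert S₀ Z, {t : ℝ | x + t • y ∈ S}).Finite :=
      (hZ.insert S₀).biUnion fun S hS => (hfin S hS).finite
    obtain ⟨t, ht, htb⟩ := (Set.Ici_infinite (0 : ℝ)).exists_notMem_finite hbad
    refine ⟨x + t • y, σ.add_mem hx (σ.smul_mem ht hy), fun S hS hm => htb ?_⟩
    exact mem_biUnion hS hm

lemma exists_sub_of_mem_span (F : PointedCone ℝ V) {x : V}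
    (hx : x ∈ Submodule.span ℝ (F : Set V)) : ∃ a ∈ F, ∃ b ∈ F, x = a - b := by
  induction hx using Submodule.span_induction with
  | mem x hx => exact ⟨x, hx, 0, F.zero_mem, by simp⟩
  | zero => exact ⟨0, F.zero_mem, 0, F.zero_mem, by simp⟩
  | add x y _ _ hx hy =>
    obtain ⟨a, ha, b, hb, rfl⟩ := hx
    obtain ⟨c, hc, d, hd, rfl⟩ := hy
    exact ⟨a + c, F.add_mem ha hc, b + d, F.add_mem hb hd, by abel⟩
  | smul t x _ hx =>
    obtain ⟨a, ha, b, hb, rfl⟩ := hx
    rcases le_total 0 t with ht | ht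
    · exact ⟨t • a, F.smul_mem ht ha, t • b, F.smul_mem ht hb, by rw [smul_sub]⟩
    · refine ⟨(-t) • b, F.smul_mem (by linarith) hb, (-t) • a, F.smul_mem (by linarith) ha, ?_⟩
      rw [smul_sub, neg_smul, neg_smul]; abel

lemma mem_face_of_mem_span {F C : PointedCone ℝ V} (hF : F.IsFaceOf C) {x : V} (hx : x ∈ C)
    (hs : x ∈ Submodule.span ℝ (F : Set V)) : x ∈ F := by
  obtain ⟨a, ha, b, hb, rfl⟩ := exists_sub_of_mem_span F hs
  exact hF.mem_of_add_mem_left hx (hF.le hb) (by simpa using ha)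

end Algebraic

end Pool.Agent.MP_b9d149_co
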