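import Mathlib
import Pool.Agent.MP_b9d149_co.Defs
import Pool.Agent.MP_b9d149_co.Geom

namespace Pool.Agent.MP_b9d149_co

open Set Module

variable {n : ℕ} {M : Matroid (Fin n)}

/-- normal cone of the basis `B` -/
def nrm (M : Matroid (Fin n)) (B : Set (Fin n)) : Set (Fin n → ℝ) :=
  {w | ∀ e, ∀ b ∈ B, b ∈ M.fundCircuit e B → w b ≤ w e}

lemma add_mem_nrm {B : Set (Fin n)} {w w' : Fin n → ℝ} (h : w ∈ nrm M B) (h' : w' ∈ nrm M B) :
    w + w' ∈ nrm M B := fun e b hb hbe => add_le_add (h e b hb hbe) (h' e b hb hbe)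

lemma smul_mem_nrm {B : Set (Fin n)} {w : Fin n → ℝ} {t : ℝ} (ht : 0 ≤ t) (h : w ∈ nrm M B) :
    t • w ∈ nrm M B := fun e b hb hbe => mul_le_mul_of_nonneg_left (h e b hb hbe) ht

lemma zero_mem_nrm {B : Set (Fin n)} : (0 : Fin n → ℝ) ∈ nrm M B := fun _ _ _ _ => le_rfl

lemma mem_closure_base (hE : M.E = univ) {B : Set (Fin n)} (hB : M.IsBase B) (e : Fin n) :
    e ∈ M.closure B := by
  rw [hB.closure_eq, hE]; trivial

lemma fund_subset_of_mem_closure (hE : M.E = univ) {B I : Set (Fin n)} (hB : M.IsBase B)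
    (hI : I ⊆ B) {e b : Fin n} (he : e ∈ M.closure I) (hb : b ∈ M.fundCircuit e B) (hne : b ≠ e) :
    b ∈ I := by
  rw [M.fundCircuit_eq_sInter (mem_closure_base hE hB e)] at hb
  rcases hb with rfl | hb
  · exact absurd rfl hne
  · exact hb I ⟨hI, he⟩

lemma mem_closure_fund (hE : M.E = univ) {B : Set (Fin n)} (hB : M.IsBase B) (e : Fin n) :
    e ∈ M.closure (B ∩ M.fundCircuit e B) := by
  by_cases he : e ∈ B
  · exact M.mem_closure_of_mem' ⟨he, M.mem_fundCircuit e B⟩ (by rw [hE]; trivial)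
  · have hC := hB.fundCircuit_isCircuit (x := e) (by rw [hE]; trivial) he
    have := hC.mem_closure_sdiff_singleton_of_mem (M.mem_fundCircuit e B)
    rwa [M.fundCircuit_sdiff_eq_inter he, inter_comm] at this

lemma mem_nrm_iff (hE : M.E = univ) {B : Set (Fin n)} (hB : M.IsBase B) {w : Fin n → ℝ} :
    w ∈ nrm M B ↔ ∀ e, e ∈ M.closure {b | b ∈ B ∧ w b ≤ w e} := by
  constructor
  · intro h e
    refine M.closure_subset_closure ?_ (mem_closure_fund hE hB e)
    exact fun b hb => ⟨hb.1, h e b hb.1 hb.2⟩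
  · intro h e b _ hbe
    by_cases hne : b = e
    · rw [hne]
    · exact (fund_subset_of_mem_closure hE hB (fun x hx => hx.1) (h e) hbe hne).2

lemma fund_nonempty [M.Loopless] (hE : M.E = univ) {B : Set (Fin n)} (hB : M.IsBase B)
    (e : Fin n) : (B ∩ M.fundCircuit e B).Nonempty := by
  by_contra h
  rw [not_nonempty_iff_eq_empty] at h
  have := mem_closure_fund hE hB e
  rw [h] at this
  exact M.not_isLoop e this

open Classical in
/-- the elements of `B` in the fundamental circuit of `e` -/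
noncomputable def fundSet (M : Matroid (Fin n)) (B : Set (Fin n)) (e : Fin n) : Finset B :=
  Finset.univ.filter fun b : B => (b : Fin n) ∈ M.fundCircuit e B

lemma mem_fundSet {B : Set (Fin n)} {e : Fin n} {b : B} :
    b ∈ fundSet M B e ↔ (b : Fin n) ∈ M.fundCircuit e B := by
  simp [fundSet]

lemma fundSet_nonempty [M.Loopless] (hE : M.E = univ) {B : Set (Fin n)} (hB : M.IsBase B)
    (e : Fin n) : (fundSet M B e).Nonempty := by
  obtain ⟨b, hb, hb'⟩ := fund_nonempty hE hB e
  exact ⟨⟨b, hb⟩, mem_fundSet.2 hb'⟩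

/-- the piecewise linear section of the projection to the coordinates in `B` -/
noncomputable def sec [M.Loopless] (hE : M.E = univ) {B : Set (Fin n)} (hB : M.IsBase B)
    (u : B → ℝ) : Fin n → ℝ :=
  fun e => (fundSet M B e).sup' (fundSet_nonempty hE hB e) u

/-- projection to the coordinates in `B` -/
def proj (B : Set (Fin n)) : (Fin n → ℝ) →ₗ[ℝ] (B → ℝ) :=
  LinearMap.funLeft ℝ ℝ (Subtype.val : B → Fin n)

@[simp] lemma proj_apply (B : Set (Fin n)) (w : Fin n → ℝ) (b : B) : proj B w b = w b := rfl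

variable [M.Loopless] (hE : M.E = univ) {B : Set (Fin n)} (hB : M.IsBase B)

lemma continuous_sec : Continuous (sec hE hB) :=
  continuous_pi fun e => Continuous.finset_sup'_apply (f := fun (b : B) (u : B → ℝ) => u b)
    (fundSet_nonempty hE hB e) fun b _ => continuous_apply b

lemma le_sec (u : B → ℝ) {e : Fin n} {b : B} (hb : (b : Fin n) ∈ M.fundCircuit e B) :
    u b ≤ sec hE hB u e :=
  Finset.le_sup' u (mem_fundSet.2 hb)

lemma exists_sec_eq (u : B → ℝ) (e : Fin n) :
    ∃ b : B, (b : Fin n) ∈ M.fundCircuit e B ∧ sec hE hB u e = u b := by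
  obtain ⟨b, hb, h⟩ := Finset.exists_mem_eq_sup' (fundSet_nonempty hE hB e) u
  exact ⟨b, mem_fundSet.1 hb, h⟩

lemma sec_base (u : B → ℝ) (b : B) : sec hE hB u b = u b := by
  obtain ⟨c, hc, h⟩ := exists_sec_eq hE hB u b
  rw [M.fundCircuit_eq_of_mem b.2] at hc
  rw [h, Subtype.ext hc]

lemma proj_sec (u : B → ℝ) : proj B (sec hE hB u) = u := funext fun b => sec_base hE hB u b

lemma sec_mem_nrm (u : B → ℝ) : sec hE hB u ∈ nrm M B := fun e b hb hbe => by
  have := sec_base hE hB u ⟨b, hb⟩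
  simp only at this
  rw [this]
  exact le_sec hE hB u (b := ⟨b, hb⟩) hbe

lemma sec_mem_bergman (u : B → ℝ) : sec hE hB u ∈ bergmanFan M := by
  intro C hC
  set w := sec hE hB u with hw
  obtain ⟨i, hi, hmax⟩ := Set.exists_max_image C w (toFinite C) hC.nonempty
  by_contra hcon
  have hlt : ∀ k ∈ C, k ≠ i → w k < w i := fun k hk hki => by
    by_contra hge
    exact hcon ⟨i, hi, k, hk, hki.symm, hmax, fun l hl => (hmax l hl).trans (not_lt.1 hge)⟩
  have hsub : C \ {i} ⊆ M.closure {b | b ∈ B ∧ w b < w i} := fun k hk => by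
    have h1 := (mem_nrm_iff hE hB).1 (sec_mem_nrm hE hB u) k
    refine M.closure_subset_closure ?_ h1
    exact fun b hb => ⟨hb.1, hb.2.trans_lt (hlt k hk.1 hk.2)⟩
  have hi' : i ∈ M.closure {b | b ∈ B ∧ w b < w i} :=
    M.closure_subset_closure_of_subset_closure hsub (hC.mem_closure_sdiff_singleton_of_mem hi)
  obtain ⟨b, hb, hbe⟩ := exists_sec_eq hE hB u i
  by_cases hne : (b : Fin n) = i
  · have hiB : i ∈ B := hne ▸ b.2
    have : i ∈ M.closure (B \ {i}) := by
      refine M.closure_subset_closure ?_ hi'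
      exact fun x hx =>
        ⟨hx.1, fun h => by rw [mem_singleton_iff.1 h] at hx; exact lt_irrefl _ hx.2⟩
    exact hB.indep.notMem_closure_sdiff_of_mem hiB this
  · have := (fund_subset_of_mem_closure hE hB (fun x hx => hx.1) hi' hb hne).2
    rw [hw, sec_base hE hB u b, hbe] at this
    exact lt_irrefl _ this

lemma sec_proj {w : Fin n → ℝ} (hw : w ∈ bergmanFan M) (hn : w ∈ nrm M B) :
    sec hE hB (proj B w) = w := by
  funext e
  apply le_antisymm
  · obtain ⟨b, hb, h⟩ := exists_sec_eq hE hB (proj B w) e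
    rw [h]
    exact hn e b b.2 hb
  · by_cases he : e ∈ B
    · exact (sec_base hE hB (proj B w) ⟨e, he⟩).ge
    · have hC := hB.fundCircuit_isCircuit (x := e) (by rw [hE]; trivial) he
      obtain ⟨i, hi, j, hj, hij, hmi, hmj⟩ := hw _ hC
      have key : ∀ k ∈ M.fundCircuit e B, k ≠ e → w e ≤ w k → w e ≤ sec hE hB (proj B w) e :=
        fun k hk hke hle => by
          have hkB : k ∈ B := (M.fundCircuit_subset_insert e B hk).resolve_left hke
          exact hle.trans (le_sec hE hB (proj B w) (b := ⟨k, hkB⟩) hk)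
      by_cases hie : i = e
      · exact key j hj (fun h => hij (hie.trans h.symm)) (hmj e (M.mem_fundCircuit e B))
      · exact key i hi hie (hmi e (M.mem_fundCircuit e B))

omit [M.Loopless] in
include hE hB in
lemma isBase_exchange {e c : Fin n} (he : e ∉ B) (hc : c ∈ M.fundCircuit e B) :
    M.IsBase (insert e B \ {c}) := by
  by_cases hce : c = e
  · subst hce
    rwa [insert_sdiff_self_of_notMem he]
  · have hcB : c ∈ B := (M.fundCircuit_subset_insert e B hc).resolve_left hce
    have hI := (hB.indep.mem_fundCircuit_iff (mem_closure_base hE hB e) he).1 hc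
    rw [← insert_sdiff_singleton_comm (Ne.symm hce)] at hI ⊢
    exact hB.exchange_isBase_of_indep he hI

omit [M.Loopless] in
include hE in
lemma exists_base_nrm (w : Fin n → ℝ) : ∃ B, M.IsBase B ∧ w ∈ nrm M B := by
  classical
  obtain ⟨B, hB, hmin⟩ := Set.exists_min_image {B | M.IsBase B}
    (fun B => ∑ i, B.indicator w i) (toFinite _) M.exists_isBase
  refine ⟨B, hB, fun e b hb hbe => ?_⟩
  by_contra hlt
  rw [not_le] at hlt
  have hne : b ≠ e := fun h => by rw [h] at hlt; exact lt_irrefl _ hlt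
  have he : e ∉ B := fun he => by
    rw [M.fundCircuit_eq_of_mem he] at hbe
    exact hne hbe
  have h1 := hmin _ (isBase_exchange hE hB he hbe)
  have h2 : ∀ i, (insert e B \ {b}).indicator w i =
      B.indicator w i + (if i = e then w e else 0) - (if i = b then w b else 0) := fun i => by
    by_cases hie : i = e
    · subst hie
      simp [indicator, he, hne.symm]
    · by_cases hib : i = b
      · subst hib
        simp [indicator, hb, hne]
      · simp [indicator, hie, hib]
  simp only [h2, Finset.sum_sub_distrib, Finset.sum_add_distrib, Finset.sum_ite_eq',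
    Finset.mem_univ, if_true] at h1
  linarith

/-- the pull-back of a cone inside the Bergman fan to an apartment -/
def pull (τ : PointedCone ℝ (Fin n → ℝ)) (hτ : (τ : Set (Fin n → ℝ)) ⊆ bergmanFan M) :
    PointedCone ℝ (B → ℝ) where
  carrier := {u | sec hE hB u ∈ τ}
  zero_mem' := by
    have := sec_proj hE hB (hτ τ.zero_mem) zero_mem_nrm
    rw [map_zero] at this
    simp only [mem_ofPred_eq, this]
    exact τ.zero_mem
  add_mem' := fun {u v} hu hv => by
    have h1 : sec hE hB u + sec hE hB v ∈ τ := τ.add_mem hu hv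
    have := sec_proj hE hB (hτ h1) (add_mem_nrm (sec_mem_nrm hE hB u) (sec_mem_nrm hE hB v))
    rw [map_add, proj_sec, proj_sec] at this
    simp only [mem_ofPred_eq, this]
    exact h1
  smul_mem' := fun t u hu => by
    have h1 : (t : ℝ) • sec hE hB u ∈ τ := τ.smul_mem t.2 hu
    have := sec_proj hE hB (hτ h1) (smul_mem_nrm t.2 (sec_mem_nrm hE hB u))
    rw [map_smul, proj_sec] at this
    change sec hE hB ((t : ℝ) • u) ∈ τ
    rw [this]
    exact h1

lemma mem_pull {τ : PointedCone ℝ (Fin n → ℝ)} {hτ : (τ : Set (Fin n → ℝ)) ⊆ bergmanFan M}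
    {u : B → ℝ} : u ∈ pull hE hB τ hτ ↔ sec hE hB u ∈ τ := Iff.rfl

lemma isClosed_pull {τ : PointedCone ℝ (Fin n → ℝ)} (hτ : (τ : Set (Fin n → ℝ)) ⊆ bergmanFan M)
    (hc : IsClosed (τ : Set (Fin n → ℝ))) : IsClosed (pull hE hB τ hτ : Set (B → ℝ)) :=
  hc.preimage (continuous_sec hE hB)

lemma finrank_lineal_pull {τ : PointedCone ℝ (Fin n → ℝ)}
    (hτ : (τ : Set (Fin n → ℝ)) ⊆ bergmanFan M) :
    finrank ℝ (pull hE hB τ hτ).lineal ≤ finrank ℝ τ.lineal := by
  refine le_trans (Submodule.finrank_mono ?_) (Submodule.finrank_map_le (proj B) τ.lineal)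
  intro u hu
  obtain ⟨h1, h2⟩ := PointedCone.mem_lineal.1 hu
  rw [mem_pull] at h1 h2
  have h3 : sec hE hB u + sec hE hB (-u) ∈ τ := τ.add_mem h1 h2
  have h4 := sec_proj hE hB (hτ h3) (add_mem_nrm (sec_mem_nrm hE hB u) (sec_mem_nrm hE hB (-u)))
  rw [map_add, proj_sec, proj_sec, add_neg_cancel] at h4
  have h5 := sec_proj hE hB (hτ τ.zero_mem) zero_mem_nrm
  rw [map_zero] at h5
  have h6 : -sec hE hB u = sec hE hB (-u) := by
    rw [neg_eq_iff_add_eq_zero, ← h4, h5]
  exact ⟨sec hE hB u, PointedCone.mem_lineal.2 ⟨h1, h6 ▸ h2⟩, proj_sec hE hB u⟩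

omit [M.Loopless] in
include hB in
lemma finrank_base {r : ℕ} (hr : M.eRank = r) : finrank ℝ (B → ℝ) = r := by
  classical
  have := hB.encard_eq_eRank
  rw [hr] at this
  rw [Module.finrank_fintype_fun_eq_card, ← Nat.card_eq_fintype_card, Nat.card_coe_set_eq,
    Set.ncard_def, this]
  rfl

end Pool.Agent.MP_b9d149_co
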