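import Mathlib
import Pool.Agent.MP_b9d149_co.Apt

set_option linter.unusedSectionVars false
set_option maxHeartbeats 400000

namespace Pool.Agent.MP_b9d149_co

open Set Module Filter Topology

variable {n : ℕ} {M : Matroid (Fin n)}

/-- points of the Bergman fan outside the given cones and subspaces -/
def good (M : Matroid (Fin n)) {ι : Type*} (τ : ι → PointedCone ℝ (Fin n → ℝ))
    (Z : Set (Submodule ℝ (Fin n → ℝ))) : Set (Fin n → ℝ) :=
  {w | w ∈ bergmanFan M ∧ (∀ i, w ∉ τ i) ∧ ∀ S ∈ Z, w ∉ S}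

/-- generic point of the maximal cone `c c'` of the tropical hyperplane of `C` -/
def gen (C : Set (Fin n)) (c c' : Fin n) (x : Fin n → ℝ) : Prop :=
  x c = x c' ∧ (∀ d ∈ C, d ≠ c → d ≠ c' → x d < x c) ∧
    ∀ d ∈ C, ∀ d' ∈ C, d ≠ c → d ≠ c' → d' ≠ c → d' ≠ c' → x d = x d' → d = d'

lemma gen_eq {τ : PointedCone ℝ (Fin n → ℝ)} (hτ : (τ : Set (Fin n → ℝ)) ⊆ bergmanFan M)
    {C : Set (Fin n)} (hC : M.IsCircuit C) {c c' : Fin n} (hc : c ∈ C)
    {x y : Fin n → ℝ} (hx : x ∈ τ) (hg : gen C c c' x) (hy : y ∈ τ) : y c = y c' := by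
  have hev : ∀ᶠ t : ℝ in atTop, ∀ d, d ∈ C → d ≠ c → d ≠ c' → t * x d + y d < t * x c + y c := by
    rw [eventually_all]
    intro d
    by_cases h : d ∈ C ∧ d ≠ c ∧ d ≠ c'
    · have ha : 0 < x c - x d := sub_pos.2 (hg.2.1 d h.1 h.2.1 h.2.2)
      filter_upwards [(tendsto_id.atTop_mul_const ha).eventually_gt_atTop (y d - y c)]
        with t ht _ _ _
      simp only [id] at ht
      linarith
    · exact Eventually.of_forall fun t h1 h2 h3 => absurd ⟨h1, h2, h3⟩ h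
  obtain ⟨t, ht, ht0⟩ := (hev.and (eventually_ge_atTop 0)).exists
  obtain ⟨i, hi, j, hj, hij, hmi, hmj⟩ := hτ (τ.add_mem (τ.smul_mem ht0 hx) hy) C hC
  have key : ∀ k ∈ C, (∀ l ∈ C, (t • x + y) l ≤ (t • x + y) k) → k = c ∨ k = c' := by
    intro k hk hmk
    by_contra hcon
    rw [not_or] at hcon
    have h1 := ht k hk hcon.1 hcon.2
    have h2 := hmk c hc
    simp only [Pi.add_apply, Pi.smul_apply, smul_eq_mul] at h2
    linarith
  have hzz : (t • x + y) i = (t • x + y) j := le_antisymm (hmj i hi) (hmi j hj)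
  simp only [Pi.add_apply, Pi.smul_apply, smul_eq_mul] at hzz
  have hxc := hg.1
  rcases key i hi hmi with rfl | rfl <;> rcases key j hj hmj with rfl | rfl
  · exact absurd rfl hij
  · rw [hxc] at hzz; linarith
  · rw [hxc] at hzz; linarith
  · exact absurd rfl hij

lemma gen_unique {τ : PointedCone ℝ (Fin n → ℝ)} (hτ : (τ : Set (Fin n → ℝ)) ⊆ bergmanFan M)
    {C : Set (Fin n)} (hC : M.IsCircuit C) {c c' d d' : Fin n} (hd : d ∈ C) (hd' : d' ∈ C)
    (hdd : d ≠ d') {x y : Fin n → ℝ} (hx : x ∈ τ) (hg : gen C c c' x) (hy : y ∈ τ)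
    (hg' : gen C d d' y) : (d = c ∨ d = c') ∧ (d' = c ∨ d' = c') := by
  have h := gen_eq hτ hC hd hy hg' hx
  have hxc := hg.1
  have aux : ∀ a ∈ C, ∀ b ∈ C, a ≠ b → x a = x b → a = c ∨ a = c' := by
    intro a ha b hb hab hx
    by_contra hcon
    rw [not_or] at hcon
    have h1 := hg.2.1 a ha hcon.1 hcon.2
    by_cases hbc : b = c
    · rw [hbc] at hx; linarith
    · by_cases hbc' : b = c'
      · rw [hbc'] at hx; linarith
      · exact hab (hg.2.2 a ha b hb hcon.1 hcon.2 hbc hbc' hx)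
  exact ⟨aux d hd d' hd' hdd h, aux d' hd' d hd hdd.symm h.symm⟩

lemma swap_nrm (hE : M.E = univ) {T C : Set (Fin n)} (hC : M.IsCircuit C) (hCT : C ⊆ T)
    {c c' : Fin n} (hc : c ∈ C) (hB : M.IsBase (T \ {c})) (hB' : M.IsBase (T \ {c'}))
    {w : Fin n → ℝ} (hw : w ∈ nrm M (T \ {c'})) (hmax : ∀ d ∈ C, w d ≤ w c) :
    w ∈ nrm M (T \ {c}) := by
  rw [mem_nrm_iff hE hB]
  rw [mem_nrm_iff hE hB'] at hw
  intro e
  refine M.closure_subset_closure_of_subset_closure ?_ (hw e)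
  intro b hb
  by_cases hbc : b = c
  · subst hbc
    refine M.closure_subset_closure ?_ (hC.mem_closure_sdiff_singleton_of_mem hc)
    exact fun d hd => ⟨⟨hCT hd.1, hd.2⟩, (hmax d hd.1).trans hb.2⟩
  · exact M.mem_closure_of_mem' ⟨⟨hb.1.1, hbc⟩, hb.2⟩ (by rw [hE]; trivial)

variable [M.Loopless] (hE : M.E = univ) {r : ℕ} (hr : M.eRank = r)
  {ι : Type*} [Fintype ι] {τ : ι → PointedCone ℝ (Fin n → ℝ)}
  (hτB : ∀ i, (τ i : Set (Fin n → ℝ)) ⊆ bergmanFan M)
  (hτc : ∀ i, IsClosed (τ i : Set (Fin n → ℝ))) {ℓ : ℕ}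
  (hℓ : ∀ i, finrank ℝ (τ i).lineal ≤ ℓ) (hd : Fintype.card ι + ℓ < r)
  {Z : Set (Submodule ℝ (Fin n → ℝ))} (hZ : Z.Finite) (hZd : ∀ S ∈ Z, finrank ℝ S + 2 ≤ r)

include hE hr hτB hτc hℓ hd hZ hZd in
lemma isPreconnected_apt {B : Set (Fin n)} (hB : M.IsBase B) :
    IsPreconnected (good M τ Z ∩ nrm M B) := by
  classical
  let Z' : Set (Submodule ℝ (B → ℝ)) := (fun S => S.map (proj B)) '' Z
  have hZ' : Z'.Finite := hZ.image _
  have hZ'd : ∀ S ∈ Z', finrank ℝ S + 2 ≤ finrank ℝ (B → ℝ) := by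
    rintro _ ⟨S, hS, rfl⟩
    rw [finrank_base hB hr]
    exact (Nat.add_le_add_right (Submodule.finrank_map_le (proj B) S) 2).trans (hZd S hS)
  have h1 := isPreconnected_compl_cones (fun i => pull hE hB (τ i) (hτB i)) ℓ
    (fun i => isClosed_pull hE hB (hτB i) (hτc i))
    (fun i => (finrank_lineal_pull hE hB (hτB i)).trans (hℓ i))
    (by rw [finrank_base hB hr]; exact hd) hZ' hZ'd
  have hdense : Dense {y : B → ℝ | ∀ S ∈ Z', y ∉ S} :=
    dense_avoid hZ' fun S hS => ne_top_of_finrank_lt (by have := hZ'd S hS; omega)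
  have hO : IsOpen {x : B → ℝ | ∀ i, x ∉ pull hE hB (τ i) (hτB i)} := by
    have : {x : B → ℝ | ∀ i, x ∉ pull hE hB (τ i) (hτB i)} =
        ⋂ i, (pull hE hB (τ i) (hτB i) : Set (B → ℝ))ᶜ := by ext; simp
    rw [this]
    exact isOpen_iInter_of_finite fun i => (isClosed_pull hE hB (hτB i) (hτc i)).isOpen_compl
  have h2 : IsPreconnected
      {u : B → ℝ | (∀ i, sec hE hB u ∉ τ i) ∧ ∀ S ∈ Z, sec hE hB u ∉ S} := by
    refine h1.subset_closure ?_ ?_
    · intro u hu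
      refine ⟨fun i hi => hu.1 i ((mem_pull hE hB).2 hi), fun S hS hm => ?_⟩
      exact hu.2 (S.map (proj B)) ⟨S, hS, rfl⟩ (Submodule.mem_map.2 ⟨_, hm, proj_sec hE hB u⟩)
    · intro u hu
      apply hdense.open_subset_closure_inter hO
      exact fun i hi => hu.1 i ((mem_pull hE hB).1 hi)
  have h3 := h2.image (sec hE hB) (continuous_sec hE hB).continuousOn
  have h4 : good M τ Z ∩ nrm M B = sec hE hB ''
      {u : B → ℝ | (∀ i, sec hE hB u ∉ τ i) ∧ ∀ S ∈ Z, sec hE hB u ∉ S} := by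
    ext w
    constructor
    · rintro ⟨⟨h1, h2, h3⟩, h4⟩
      refine ⟨proj B w, ?_, sec_proj hE hB h1 h4⟩
      rw [mem_ofPred_eq, sec_proj hE hB h1 h4]
      exact ⟨h2, h3⟩
    · rintro ⟨u, hu, rfl⟩
      exact ⟨⟨sec_mem_bergman hE hB u, hu.1, hu.2⟩, sec_mem_nrm hE hB u⟩
  rw [h4]
  exact h3

include hr hτc hZ hZd in
lemma alive {T C : Set (Fin n)} (hC : M.IsCircuit C) (hCT : C ⊆ T)
    {c c' : Fin n} (hc : c ∈ C) (_hc' : c' ∈ C) (hcc : c ≠ c')
    (hB : M.IsBase (T \ {c})) (hB' : M.IsBase (T \ {c'})) (v : ↥(T \ {c'}) → ℝ)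
    (hv : ∀ d : ↥(T \ {c'}), d.1 ∈ C → v d = v ⟨c, hCT hc, hcc⟩)
    (hvτ : ∀ i, (∃ x ∈ τ i, gen C c c' x) → v ∉ pull hE hB' (τ i) (hτB i)) :
    ((good M τ Z ∩ nrm M (T \ {c'})) ∩ (good M τ Z ∩ nrm M (T \ {c}))).Nonempty := by
  classical
  set cB : ↥(T \ {c'}) := ⟨c, hCT hc, hcc⟩ with hcB
  let O₁ : Set (↥(T \ {c'}) → ℝ) :=
    ⋂ i, ⋂ (_ : ∃ x ∈ τ i, gen C c c' x), (pull hE hB' (τ i) (hτB i) : Set _)ᶜ
  let O₂ : Set (↥(T \ {c'}) → ℝ) := ⋂ d : ↥(T \ {c'}), ⋂ (_ : d.1 ∈ C ∧ d ≠ cB), {u | u d < u cB}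
  have hO₁ : IsOpen O₁ := isOpen_iInter_of_finite fun i => isOpen_iInter_of_finite fun _ =>
    (isClosed_pull hE hB' (hτB i) (hτc i)).isOpen_compl
  have hO₂ : IsOpen O₂ := isOpen_iInter_of_finite fun d => isOpen_iInter_of_finite fun _ =>
    isOpen_lt (continuous_apply d) (continuous_apply cB)
  have hne : (O₁ ∩ O₂).Nonempty := by
    let p : ℝ → (↥(T \ {c'}) → ℝ) := fun ε => v + ε • Pi.single cB 1
    have hp : Continuous p := by fun_prop
    have h0 : p 0 ∈ O₁ := by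
      simp only [p, zero_smul, add_zero, O₁, mem_iInter]
      exact fun i hi => hvτ i hi
    have hev : ∀ᶠ ε in 𝓝[>] (0 : ℝ), p ε ∈ O₁ :=
      (hp.continuousAt.eventually_mem (hO₁.mem_nhds h0)).filter_mono nhdsWithin_le_nhds
    obtain ⟨ε, h1, h2⟩ := (hev.and self_mem_nhdsWithin).exists
    refine ⟨p ε, h1, ?_⟩
    simp only [O₂, mem_iInter, mem_ofPred_eq]
    intro d hd
    have h2' : 0 < ε := h2
    simp [p, hd.2, hv d hd.1, h2']
  let Z' : Set (Submodule ℝ (↥(T \ {c'}) → ℝ)) := (fun S => S.map (proj (T \ {c'}))) '' Z ∪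
    (fun q : ↥(T \ {c'}) × ↥(T \ {c'}) =>
      LinearMap.ker ((LinearMap.proj q.1 : (↥(T \ {c'}) → ℝ) →ₗ[ℝ] ℝ) - LinearMap.proj q.2)) ''
      {q | q.1 ≠ q.2}
  have hZ' : Z'.Finite := (hZ.image _).union ((toFinite _).image _)
  have hZ'top : ∀ S ∈ Z', S ≠ ⊤ := by
    rintro _ (⟨S, hS, rfl⟩ | ⟨q, hq, rfl⟩)
    · apply ne_top_of_finrank_lt
      rw [finrank_base hB' hr]
      exact (Submodule.finrank_map_le (proj (T \ {c'})) S).trans_lt (by have := hZd S hS; omega)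
    · intro h
      have hm : (Pi.single q.1 1 : ↥(T \ {c'}) → ℝ) ∈ LinearMap.ker
          ((LinearMap.proj q.1 : (↥(T \ {c'}) → ℝ) →ₗ[ℝ] ℝ) - LinearMap.proj q.2) := by
        simp only at h
        rw [h]; trivial
      have hq' : q.2 ≠ q.1 := Ne.symm hq
      simp [hq'] at hm
  obtain ⟨u, ⟨hu₁, hu₂⟩, huZ⟩ := (dense_avoid hZ' hZ'top).inter_open_nonempty _ (hO₁.inter hO₂) hne
  simp only [O₁, mem_iInter] at hu₁
  simp only [O₂, mem_iInter, mem_ofPred_eq] at hu₂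
  have hinj : ∀ d d' : ↥(T \ {c'}), u d = u d' → d = d' := fun d d' h => by
    by_contra hne
    exact huZ _ (Or.inr ⟨(d, d'), hne, rfl⟩) (by simp [h])
  have hCf : C = M.fundCircuit c' (T \ {c'}) := hC.eq_fundCircuit_of_subset hB'.indep (by
    intro d hd
    by_cases h : d = c'
    · exact Or.inl h
    · exact Or.inr ⟨hCT hd, h⟩)
  set w := sec hE hB' u with hw
  have hwb : ∀ d (hd : d ∈ T \ {c'}), w d = u ⟨d, hd⟩ := fun d hd => sec_base hE hB' u ⟨d, hd⟩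
  have hwc : w c = u cB := hwb c _
  have hlt : ∀ d ∈ C, d ≠ c → d ≠ c' → w d < w c := fun d hd h1 h2 => by
    rw [hwb d ⟨hCT hd, h2⟩, hwc]
    exact hu₂ _ ⟨hd, fun h => h1 (congrArg Subtype.val h)⟩
  have hwc' : w c = w c' := by
    apply le_antisymm
    · rw [hwc]
      exact le_sec hE hB' u (b := cB) (hCf ▸ hc)
    · obtain ⟨b, hb, hbe⟩ := exists_sec_eq hE hB' u c'
      rw [hw, hbe, ← hw, hwc]
      by_cases h : b = cB
      · rw [h]
      · exact (hu₂ b ⟨hCf ▸ hb, h⟩).le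
  have hgen : gen C c c' w := by
    refine ⟨hwc', hlt, fun d hd d' hd' _ h2 _ h4 h => ?_⟩
    rw [hwb d ⟨hCT hd, h2⟩, hwb d' ⟨hCT hd', h4⟩] at h
    exact congrArg Subtype.val (hinj _ _ h)
  have hgood : w ∈ good M τ Z := by
    refine ⟨sec_mem_bergman hE hB' u, fun i hi => hu₁ i ⟨w, hi, hgen⟩ hi, fun S hS hm => ?_⟩
    exact huZ _ (Or.inl ⟨S, hS, rfl⟩) ⟨_, hm, proj_sec hE hB' u⟩
  refine ⟨w, ⟨hgood, sec_mem_nrm hE hB' u⟩, hgood,
    swap_nrm hE hC hCT hc hB hB' (sec_mem_nrm hE hB' u) fun d hd => ?_⟩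
  by_cases h1 : d = c
  · rw [h1]
  · by_cases h2 : d = c'
    · rw [h2, hwc']
    · exact (hlt d hd h1 h2).le

include hE hr hτB hτc hZ hZd in
lemma alive_of_empty {T C : Set (Fin n)} (hC : M.IsCircuit C) (hCT : C ⊆ T)
    {c c' : Fin n} (hc : c ∈ C) (hc' : c' ∈ C) (hcc : c ≠ c')
    (hB : M.IsBase (T \ {c})) (hB' : M.IsBase (T \ {c'}))
    (h : ∀ i, ¬ ∃ x ∈ τ i, gen C c c' x) :
    ((good M τ Z ∩ nrm M (T \ {c'})) ∩ (good M τ Z ∩ nrm M (T \ {c}))).Nonempty :=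
  alive hE hr hτB hτc hZ hZd hC hCT hc hc' hcc hB hB' 0 (fun _ _ => rfl)
    fun i hi => absurd hi (h i)

include hE hr hτB hτc hℓ hd hZ hZd in
lemma linked {T C : Set (Fin n)} (hC : M.IsCircuit C) (hCT : C ⊆ T)
    (hT : ∀ c ∈ C, M.IsBase (T \ {c})) {e e' : Fin n} (he : e ∈ C) (he' : e' ∈ C) (hee : e ≠ e') :
    Relation.ReflTransGen (fun B B' : Set (Fin n) =>
      ((good M τ Z ∩ nrm M B) ∩ (good M τ Z ∩ nrm M B')).Nonempty ∧ B ∈ {B | M.IsBase B})
      (T \ {e'}) (T \ {e}) := by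
  classical
  by_cases hcase : ∃ c ∈ C, c ≠ e ∧ c ≠ e' ∧ (∀ i, ¬ ∃ x ∈ τ i, gen C e c x) ∧
      (∀ i, ¬ ∃ x ∈ τ i, gen C c e' x)
  · obtain ⟨c, hc, hce, hce', h1, h2⟩ := hcase
    refine Relation.ReflTransGen.tail (b := T \ {c}) (Relation.ReflTransGen.single ⟨?_, hT e' he'⟩)
      ⟨?_, hT c hc⟩
    · exact alive_of_empty hE hr hτB hτc hZ hZd hC hCT hc he' hce' (hT c hc) (hT e' he') h2
    · exact alive_of_empty hE hr hτB hτc hZ hZd hC hCT he hc hce.symm (hT e he) (hT c hc) h1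
  · refine Relation.ReflTransGen.single ⟨?_, hT e' he'⟩
    let K : Finset (Fin n) := Finset.univ.filter fun d => d ∈ C ∧ d ≠ e ∧ d ≠ e'
    let J : Finset ι := Finset.univ.filter fun i => ∃ x ∈ τ i, gen C e e' x
    have hK : ∀ c : K, c.1 ∈ C ∧ c.1 ≠ e ∧ c.1 ≠ e' := fun c => (Finset.mem_filter.1 c.2).2
    have hex : ∀ c : K, ∃ i, (∃ x ∈ τ i, gen C e c x) ∨ (∃ x ∈ τ i, gen C c e' x) := by
      intro c
      by_contra hcon
      push Not at hcon
      refine hcase ⟨c, (hK c).1, (hK c).2.1, (hK c).2.2, fun i => ?_, fun i => ?_⟩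
      · rintro ⟨x, hx, hg⟩; exact (hcon i).1 x hx hg
      · rintro ⟨x, hx, hg⟩; exact (hcon i).2 x hx hg
    choose g hg using hex
    have hmem : ∀ (c : K) (a b : Fin n), (∃ x ∈ τ (g c), gen C a b x) → c.1 = a ∨ c.1 = b := by
      rintro c a b ⟨x, hx, hgx⟩
      rcases hg c with ⟨y, hy, hgy⟩ | ⟨y, hy, hgy⟩
      · exact (gen_unique (hτB _) hC he (hK c).1 (hK c).2.1.symm hx hgx hy hgy).2
      · exact (gen_unique (hτB _) hC (hK c).1 he' (hK c).2.2 hx hgx hy hgy).1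
    have hgJ : ∀ c : K, g c ∈ Jᶜ := fun c => by
      simp only [J, Finset.mem_compl, Finset.mem_filter, Finset.mem_univ, true_and]
      intro h
      rcases hmem c e e' h with h | h
      · exact (hK c).2.1 h
      · exact (hK c).2.2 h
    have hginj : Function.Injective fun c : K => (⟨g c, hgJ c⟩ : ↥(Jᶜ)) := by
      intro c d h
      have h' : g c = g d := congrArg Subtype.val h
      apply Subtype.ext
      rcases hg d with hd | hd
      · rcases hmem c e d (h' ▸ hd) with h | h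
        · exact absurd h (hK c).2.1
        · exact h
      · rcases hmem c d e' (h' ▸ hd) with h | h
        · exact h
        · exact absurd h (hK c).2.2
    have hcard : K.card + J.card ≤ Fintype.card ι := by
      have h1 := Fintype.card_le_of_injective _ hginj
      rw [Fintype.card_coe, Fintype.card_coe, Finset.card_compl] at h1
      have h2 := Finset.card_le_univ J
      omega
    have hB' := hT e' he'
    let eB : ↥(T \ {e'}) := ⟨e, hCT he, hee⟩
    let F : (↥(T \ {e'}) → ℝ) →ₗ[ℝ] (K → ℝ) := LinearMap.pi fun d : K =>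
      (LinearMap.proj (⟨d.1, hCT (hK d).1, (hK d).2.2⟩ : ↥(T \ {e'})) :
        (↥(T \ {e'}) → ℝ) →ₗ[ℝ] ℝ) - LinearMap.proj eB
    have h1 := F.finrank_range_add_finrank_ker
    have h2 : finrank ℝ (LinearMap.range F) ≤ K.card := by
      simpa using Submodule.finrank_le (LinearMap.range F)
    rw [finrank_base hB' hr] at h1
    obtain ⟨v, hv, hvτ⟩ := exists_notMem_cones_submodule
      (fun i => pull hE hB' (τ i) (hτB i)) ℓ J
      (fun i _ => isClosed_pull hE hB' (hτB i) (hτc i))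
      (fun i _ => (finrank_lineal_pull hE hB' (hτB i)).trans (hℓ i)) (LinearMap.ker F) (by omega)
    refine alive hE hr hτB hτc hZ hZd hC hCT he he' hee (hT e he) hB' v (fun d hd => ?_)
      fun i hi => hvτ i (by simpa [J] using hi)
    by_cases hde : d.1 = e
    · congr 1
      exact Subtype.ext hde
    · have hdK : d.1 ∈ K := by
        simp only [K, Finset.mem_filter, Finset.mem_univ, true_and]
        exact ⟨hd, hde, d.2.2⟩
      have := congrFun (LinearMap.mem_ker.1 hv) ⟨d.1, hdK⟩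
      simpa [F, sub_eq_zero] using this

include hE hr hτB hτc hℓ hd hZ hZd in
theorem isPreconnected_good : IsPreconnected (good M τ Z) := by
  have hU : good M τ Z = ⋃ B ∈ {B | M.IsBase B}, good M τ Z ∩ nrm M B := by
    ext w
    simp only [mem_iUnion, mem_inter_iff, mem_ofPred_eq, exists_prop]
    constructor
    · intro hw
      obtain ⟨B, hB, hw'⟩ := exists_base_nrm hE w
      exact ⟨B, hB, hw, hw'⟩
    · rintro ⟨B, -, hw, -⟩
      exact hw
  rw [hU]
  refine IsPreconnected.biUnion_of_reflTransGen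
    (fun B hB => isPreconnected_apt hE hr hτB hτc hℓ hd hZ hZd hB) ?_
  intro B hB B' hB'
  generalize hk : (B \ B').ncard = k
  induction k generalizing B with
  | zero =>
    rw [Set.ncard_eq_zero (toFinite _), sdiff_eq_empty] at hk
    rw [Matroid.IsBase.eq_of_subset_isBase hB hB' hk]
  | succ k ih =>
    obtain ⟨e, he⟩ : (B \ B').Nonempty := by
      rw [← Set.ncard_pos (toFinite _)]; omega
    obtain ⟨f, hf, hB₁⟩ := Matroid.IsBase.exchange hB hB' he
    have hef : e ≠ f := fun h => hf.2 (h ▸ he.1)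
    have hC := Matroid.IsBase.fundCircuit_isCircuit hB (x := f) (by rw [hE]; trivial) hf.2
    have heq : insert f (B \ {e}) = insert f B \ {e} := insert_sdiff_singleton_comm hef.symm B
    have heC : e ∈ M.fundCircuit f B := by
      rw [(Matroid.IsBase.indep hB).mem_fundCircuit_iff (mem_closure_base hE hB f) hf.2, ← heq]
      exact hB₁.indep
    have hl := linked hE hr hτB hτc hℓ hd hZ hZd hC (M.fundCircuit_subset_insert f B)
      (fun c hc => isBase_exchange hE hB hf.2 hc) heC (M.mem_fundCircuit f B) hef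
    rw [insert_sdiff_self_of_notMem hf.2, ← heq] at hl
    refine hl.trans (ih _ hB₁ ?_)
    have : insert f (B \ {e}) \ B' = (B \ B') \ {e} := by
      ext x
      simp only [Set.mem_sdiff, mem_insert_iff, mem_singleton_iff]
      constructor
      · rintro ⟨rfl | ⟨h1, h2⟩, h3⟩
        · exact absurd hf.1 h3
        · exact ⟨⟨h1, h3⟩, h2⟩
      · rintro ⟨⟨h1, h3⟩, h2⟩
        exact ⟨Or.inr ⟨h1, h2⟩, h3⟩
    rw [this, Set.ncard_sdiff_singleton_of_mem he, hk]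
    rfl

end Pool.Agent.MP_b9d149_co
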