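import Mathlib
import Pool.Agent.MP_b9d149_co.Link

set_option linter.unusedSectionVars false
set_option maxHeartbeats 400000

namespace Pool.Agent.MP_b9d149_co

open Set Module Filter Topology
open scoped Pointwise

section Closed

variable {V : Type*} [NormedAddCommGroup V] [NormedSpace ℝ V]

lemma mem_hull_finset {s : Finset V} {x : V} :
    x ∈ PointedCone.hull ℝ (s : Set V) ↔
      ∃ c : V → ℝ, (∀ v ∈ s, 0 ≤ c v) ∧ ∑ v ∈ s, c v • v = x := by
  constructor
  · intro hx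
    obtain ⟨f, -, rfl⟩ := Submodule.mem_span_finset.1 hx
    exact ⟨fun v => (f v : ℝ), fun v _ => (f v).2, rfl⟩
  · rintro ⟨c, hc, rfl⟩
    exact Submodule.sum_mem _ fun v hv =>
      PointedCone.smul_mem _ (hc v hv) (PointedCone.subset_hull (Finset.mem_coe.2 hv))

lemma isClosed_hull_finset (s : Finset V) : IsClosed (PointedCone.hull ℝ (s : Set V) : Set V) := by
  classical
  induction s using Finset.strongInduction with
  | H s ih =>
    by_cases hli : LinearIndependent ℝ (Subtype.val : s → V)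
    · let L : (s → ℝ) →ₗ[ℝ] V := Fintype.linearCombination ℝ (Subtype.val : s → V)
      have hinj : Function.Injective L := hli.fintypeLinearCombination_injective
      have hemb := LinearMap.isClosedEmbedding_of_injective (LinearMap.ker_eq_bot.2 hinj)
      have heq : (PointedCone.hull ℝ (s : Set V) : Set V) = L '' {c | ∀ v, 0 ≤ c v} := by
        ext x
        rw [SetLike.mem_coe, mem_hull_finset]
        constructor
        · rintro ⟨c, hc, rfl⟩
          refine ⟨fun v => c v, fun v => hc v v.2, ?_⟩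
          simp only [L, Fintype.linearCombination_apply]
          exact Finset.sum_coe_sort s fun v => c v • v
        · rintro ⟨c, hc, rfl⟩
          refine ⟨fun v => if h : v ∈ s then c ⟨v, h⟩ else 0, fun v hv => ?_, ?_⟩
          · simpa [hv] using hc ⟨v, hv⟩
          · simp only [L, Fintype.linearCombination_apply]
            rw [← Finset.sum_coe_sort s]
            exact Finset.sum_congr rfl fun v _ => by simp
      rw [heq]
      apply hemb.isClosedMap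
      have : {c : s → ℝ | ∀ v, 0 ≤ c v} = ⋂ v, {c | 0 ≤ c v} := by ext; simp
      rw [this]
      exact isClosed_iInter fun v => isClosed_le continuous_const (continuous_apply v)
    · have hex : ∃ g : V → ℝ, ∑ v ∈ s, g v • v = 0 ∧ ∃ v ∈ s, 0 < g v := by
        obtain ⟨g, hg, i, hi⟩ := Fintype.not_linearIndependent_iff.1 hli
        let g' : V → ℝ := fun v => if h : v ∈ s then g ⟨v, h⟩ else 0
        have hg' : ∑ v ∈ s, g' v • v = 0 := by
          rw [← Finset.sum_coe_sort s, ← hg]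
          exact Finset.sum_congr rfl fun v _ => by simp [g']
        have hi' : g' i = g i := by simp [g']
        rcases lt_or_gt_of_ne hi with h | h
        · refine ⟨fun v => -g' v, ?_, i, i.2, by simp only [hi']; linarith⟩
          simp only [neg_smul, Finset.sum_neg_distrib, hg', neg_zero]
        · exact ⟨g', hg', i, i.2, by rw [hi']; exact h⟩
      obtain ⟨g, hg, v₁, hv₁, hgv₁⟩ := hex
      have heq : (PointedCone.hull ℝ (s : Set V) : Set V) =
          ⋃ v ∈ s, (PointedCone.hull ℝ ((s.erase v : Finset V) : Set V) : Set V) := by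
        ext x
        simp only [mem_iUnion, SetLike.mem_coe, exists_prop]
        constructor
        · intro hx
          obtain ⟨c, hc, rfl⟩ := mem_hull_finset.1 hx
          obtain ⟨v₀, hv₀, hmin⟩ := (s.filter fun v => 0 < g v).exists_min_image
            (fun v => c v / g v) ⟨v₁, Finset.mem_filter.2 ⟨hv₁, hgv₁⟩⟩
          obtain ⟨hv₀s, hgv₀⟩ := Finset.mem_filter.1 hv₀
          have ht : 0 ≤ c v₀ / g v₀ := div_nonneg (hc v₀ hv₀s) hgv₀.le
          refine ⟨v₀, hv₀s, mem_hull_finset.2 ⟨fun v => c v - c v₀ / g v₀ * g v, fun v hv => ?_, ?_⟩⟩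
          · have hvs := Finset.mem_of_mem_erase hv
            rcases lt_or_ge 0 (g v) with h | h
            · have := hmin v (Finset.mem_filter.2 ⟨hvs, h⟩)
              rw [le_div_iff₀ h] at this
              linarith
            · have := mul_nonpos_of_nonneg_of_nonpos ht h
              have := hc v hvs
              linarith
          · rw [Finset.sum_erase s (by simp [hgv₀.ne'])]
            simp only [sub_smul, mul_smul, Finset.sum_sub_distrib, ← Finset.smul_sum, hg,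
              smul_zero, sub_zero]
        · rintro ⟨v, -, hx⟩
          exact Submodule.span_mono (Finset.coe_subset.2 (Finset.erase_subset v s)) hx
      rw [heq]
      exact s.finite_toSet.isClosed_biUnion fun v hv => ih _ (Finset.erase_ssubset hv)

lemma isClosed_of_fg {σ : PointedCone ℝ V} (h : σ.FG) : IsClosed (σ : Set V) := by
  obtain ⟨s, rfl⟩ := h
  exact isClosed_hull_finset s

end Closed

variable {n : ℕ} {M : Matroid (Fin n)} [M.Loopless] (hE : M.E = univ) {r : ℕ} (hr : M.eRank = r)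

include hE hr in
lemma coneDim_le {σ : PointedCone ℝ (Fin n → ℝ)} (hσ : (σ : Set (Fin n → ℝ)) ⊆ bergmanFan M) :
    coneDim σ ≤ r := by
  classical
  let F : (Fin n → Fin n) → Submodule ℝ (Fin n → ℝ) := fun c =>
    LinearMap.eqLocus LinearMap.id (LinearMap.funLeft ℝ ℝ c)
  let Z : Set (Submodule ℝ (Fin n → ℝ)) := F '' {c | finrank ℝ (F c) ≤ r}
  have hZ : Z.Finite := (toFinite _).image _
  by_contra hcon
  obtain ⟨x, hx, hxZ⟩ := exists_mem_cone_avoid σ hZ (by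
    rintro _ ⟨c, hc, rfl⟩ hsub
    exact hcon ((Submodule.finrank_mono (Submodule.span_le.2 hsub)).trans hc))
  obtain ⟨B, hB, hxB⟩ := exists_base_nrm hE x
  choose b _ hb using exists_sec_eq hE hB (proj B x)
  rw [sec_proj hE hB (hσ hx) hxB] at hb
  refine hxZ (F fun e => b e) ⟨_, ?_, rfl⟩ ?_
  · have hle : F (fun e => b e) ≤ LinearMap.range (LinearMap.funLeft ℝ ℝ b) := by
      intro w hw
      exact ⟨proj B w, (LinearMap.mem_eqLocus.1 hw).symm⟩
    refine (Submodule.finrank_mono hle).trans ?_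
    rw [← finrank_base hB hr]
    exact LinearMap.finrank_range_le _
  · exact LinearMap.mem_eqLocus.2 (funext hb)

variable {S : Set (PointedCone ℝ (Fin n → ℝ))} (hS : IsPolyhedralFan S)
  (hsupp : fanSupport S = bergmanFan M)

omit [M.Loopless] in
include hsupp in
lemma subset_bergman {σ : PointedCone ℝ (Fin n → ℝ)} (hσ : σ ∈ S) :
    (σ : Set (Fin n → ℝ)) ⊆ bergmanFan M := by
  rw [← hsupp]
  exact subset_biUnion_of_mem (u := fun σ : PointedCone ℝ (Fin n → ℝ) => (σ : Set (Fin n → ℝ))) hσ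

include hE hr hS hsupp in
lemma exists_facet {x : Fin n → ℝ} (hx : x ∈ bergmanFan M) :
    ∃ σ ∈ S, coneDim σ = r ∧ x ∈ σ := by
  classical
  obtain ⟨B, hB, hxB⟩ := exists_base_nrm hE x
  let Z : Set (Submodule ℝ (B → ℝ)) :=
    (fun ρ : PointedCone ℝ (Fin n → ℝ) =>
      (Submodule.span ℝ (ρ : Set (Fin n → ℝ))).map (proj B)) '' {ρ | ρ ∈ S ∧ coneDim ρ < r}
  have hZ : Z.Finite := (hS.finite.subset fun _ h => h.1).image _
  have hdense : Dense {u : B → ℝ | ∀ T ∈ Z, u ∉ T} := dense_avoid hZ (by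
    rintro _ ⟨ρ, hρ, rfl⟩
    apply ne_top_of_finrank_lt
    rw [finrank_base hB hr]
    exact (Submodule.finrank_map_le _ _).trans_lt hρ.2)
  let F : Set (Fin n → ℝ) := ⋃ σ ∈ {σ | σ ∈ S ∧ coneDim σ = r}, (σ : Set (Fin n → ℝ))
  have hF : IsClosed F := (hS.finite.subset fun _ h => h.1).isClosed_biUnion fun σ hσ =>
    isClosed_of_fg (hS.fg σ hσ.1)
  have hsub : {u : B → ℝ | ∀ T ∈ Z, u ∉ T} ⊆ sec hE hB ⁻¹' F := by
    intro u hu
    have h1 := sec_mem_bergman hE hB u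
    rw [← hsupp] at h1
    obtain ⟨σ, hσ, hm⟩ := mem_iUnion₂.1 h1
    refine mem_iUnion₂.2 ⟨σ, ⟨hσ, ?_⟩, hm⟩
    refine le_antisymm (coneDim_le hE hr (subset_bergman hsupp hσ)) (not_lt.1 fun hlt => ?_)
    exact hu _ ⟨σ, ⟨hσ, hlt⟩, rfl⟩
      (Submodule.mem_map.2 ⟨_, Submodule.subset_span hm, proj_sec hE hB u⟩)
  have hall : proj B x ∈ sec hE hB ⁻¹' F :=
    closure_minimal hsub (hF.preimage (continuous_sec hE hB)) (hdense _)
  rw [mem_preimage, sec_proj hE hB hx hxB] at hall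
  obtain ⟨σ, hσ, hm⟩ := mem_iUnion₂.1 hall
  exact ⟨σ, hσ.1, hσ.2, hm⟩

include hS in
lemma le_of_subset_span_inf {σ τ : PointedCone ℝ (Fin n → ℝ)} (hσ : σ ∈ S) (hτ : τ ∈ S)
    (h : (σ : Set (Fin n → ℝ)) ⊆ Submodule.span ℝ ((σ ⊓ τ : PointedCone ℝ (Fin n → ℝ)) :
      Set (Fin n → ℝ))) : σ ≤ τ := fun _ hx =>
  (mem_face_of_mem_span (hS.inf_isFaceOf σ hσ τ hτ) hx (h hx)).2

include hS in
lemma le_of_coneDim_inf {σ τ : PointedCone ℝ (Fin n → ℝ)} (hσ : σ ∈ S) (hτ : τ ∈ S)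
    (h : coneDim σ ≤ coneDim (σ ⊓ τ)) : σ ≤ τ := by
  apply le_of_subset_span_inf hS hσ hτ
  have : Submodule.span ℝ ((σ ⊓ τ : PointedCone ℝ (Fin n → ℝ)) : Set (Fin n → ℝ)) =
      Submodule.span ℝ (σ : Set (Fin n → ℝ)) :=
    Submodule.eq_of_le_of_finrank_le (Submodule.span_mono fun _ hx => hx.1) h
  rw [this]
  exact Submodule.subset_span

include hS in
lemma coneDim_inf_lt {σ τ : PointedCone ℝ (Fin n → ℝ)} (hσ : σ ∈ S) (hτ : τ ∈ S)
    (hd : coneDim σ = coneDim τ) (hne : σ ≠ τ) : coneDim (σ ⊓ τ) < coneDim σ := by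
  by_contra h
  rw [not_lt] at h
  apply hne
  refine le_antisymm (le_of_coneDim_inf hS hσ hτ h) (le_of_coneDim_inf hS hτ hσ ?_)
  rwa [inf_comm, ← hd]

include hS in
lemma lineal_le_linealitySpace {τ : PointedCone ℝ (Fin n → ℝ)} (hτ : τ ∈ S) :
    τ.lineal ≤ linealitySpace S := by
  apply le_sSup
  intro σ hσ
  have h1 : τ.lineal = σ.lineal := by
    rw [← (hS.inf_isFaceOf τ hτ σ hσ).lineal_congr, inf_comm,
      (hS.inf_isFaceOf σ hσ τ hτ).lineal_congr]
  rw [h1]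
  apply Subset.antisymm
  · rintro _ ⟨a, ha, b, hb, rfl⟩
    exact σ.add_mem ha (PointedCone.mem_lineal.1 hb).1
  · intro a ha
    exact ⟨a, ha, 0, σ.lineal.zero_mem, add_zero a⟩

include hE hr hS hsupp in
theorem main : ConnectedThroughCodimOne S r (r - finrank ℝ (linealitySpace S)) := by
  classical
  intro D hD hcard σ hσ hσd hσD σ' hσ' hσ'd hσ'D
  let Z : Set (Submodule ℝ (Fin n → ℝ)) :=
    (fun ρ : PointedCone ℝ (Fin n → ℝ) => Submodule.span ℝ (ρ : Set (Fin n → ℝ))) ''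
      {ρ | ρ ∈ S ∧ coneDim ρ + 2 ≤ r}
  have hZ : Z.Finite := (hS.finite.subset fun _ h => h.1).image _
  have hZd : ∀ T ∈ Z, finrank ℝ T + 2 ≤ r := by
    rintro _ ⟨ρ, hρ, rfl⟩
    exact hρ.2
  have hW := isPreconnected_good (τ := fun i : D => i.1) hE hr
    (fun i => subset_bergman hsupp (hD i i.2).1) (fun i => isClosed_of_fg (hS.fg _ (hD i i.2).1))
    (ℓ := finrank ℝ (linealitySpace S))
    (fun i => Submodule.finrank_mono (lineal_le_linealitySpace hS (hD i i.2).1))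
    (by rw [Fintype.card_coe]; omega) hZ hZd
  set W := good M (fun i : D => i.1) Z with hWdef
  have hmeet : ∀ a ∈ S, coneDim a = r → a ∉ D → ∃ x ∈ W, x ∈ a := by
    intro a ha had haD
    let Z' : Set (Submodule ℝ (Fin n → ℝ)) := Z ∪ (fun τ : PointedCone ℝ (Fin n → ℝ) =>
      Submodule.span ℝ ((a ⊓ τ : PointedCone ℝ (Fin n → ℝ)) : Set (Fin n → ℝ))) '' D
    have hZ' : Z'.Finite := hZ.union (D.finite_toSet.image _)
    obtain ⟨x, hx, hxZ⟩ := exists_mem_cone_avoid a hZ' (by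
      rintro T (hT | ⟨τ, hτ, rfl⟩) hsub
      · have h1 : coneDim a ≤ finrank ℝ T := Submodule.finrank_mono (Submodule.span_le.2 hsub)
        have := hZd T hT
        omega
      · have h1 : coneDim a ≤ coneDim (a ⊓ τ) := Submodule.finrank_mono (Submodule.span_le.2 hsub)
        have := coneDim_inf_lt hS ha (hD τ hτ).1 (had.trans (hD τ hτ).2.symm)
          (fun h => haD (h ▸ hτ))
        omega)
    refine ⟨x, ⟨subset_bergman hsupp ha hx, fun i hi => ?_, fun T hT => hxZ T (Or.inl hT)⟩, hx⟩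
    exact hxZ _ (Or.inr ⟨i.1, i.2, rfl⟩) (Submodule.subset_span ⟨hx, hi⟩)
  set R : PointedCone ℝ (Fin n → ℝ) → PointedCone ℝ (Fin n → ℝ) → Prop := fun a b =>
    (a ∈ S ∧ coneDim a = r ∧ a ∉ D) ∧ (b ∈ S ∧ coneDim b = r ∧ b ∉ D) ∧
      ∃ ρ ∈ S, coneDim ρ + 1 = r ∧ ρ ≤ a ∧ ρ ≤ b ∧ ∀ τ ∈ D, ¬ ρ ≤ τ with hR
  by_contra hcon
  let A₁ : Set (PointedCone ℝ (Fin n → ℝ)) :=
    {a | (a ∈ S ∧ coneDim a = r ∧ a ∉ D) ∧ Relation.ReflTransGen R σ a}
  let A₂ : Set (PointedCone ℝ (Fin n → ℝ)) :=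
    {a | (a ∈ S ∧ coneDim a = r ∧ a ∉ D) ∧ ¬ Relation.ReflTransGen R σ a}
  have hc₁ : IsClosed (⋃ a ∈ A₁, (a : Set (Fin n → ℝ))) :=
    (hS.finite.subset fun _ h => h.1.1).isClosed_biUnion fun a ha => isClosed_of_fg (hS.fg a ha.1.1)
  have hc₂ : IsClosed (⋃ a ∈ A₂, (a : Set (Fin n → ℝ))) :=
    (hS.finite.subset fun _ h => h.1.1).isClosed_biUnion fun a ha => isClosed_of_fg (hS.fg a ha.1.1)
  obtain ⟨x, hxW, hx₁, hx₂⟩ := isPreconnected_closed_iff.1 hW _ _ hc₁ hc₂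
    (by
      intro x hx
      obtain ⟨a, ha, had, hxa⟩ := exists_facet hE hr hS hsupp hx.1
      have haD : a ∉ D := fun h => hx.2.1 ⟨a, h⟩ hxa
      by_cases h : Relation.ReflTransGen R σ a
      · exact Or.inl (mem_iUnion₂.2 ⟨a, ⟨⟨ha, had, haD⟩, h⟩, hxa⟩)
      · exact Or.inr (mem_iUnion₂.2 ⟨a, ⟨⟨ha, had, haD⟩, h⟩, hxa⟩))
    (by
      obtain ⟨x, hx, hxa⟩ := hmeet σ hσ hσd hσD
      exact ⟨x, hx, mem_iUnion₂.2 ⟨σ, ⟨⟨hσ, hσd, hσD⟩, .refl⟩, hxa⟩⟩)
    (by
      obtain ⟨x, hx, hxa⟩ := hmeet σ' hσ' hσ'd hσ'D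
      exact ⟨x, hx, mem_iUnion₂.2 ⟨σ', ⟨⟨hσ', hσ'd, hσ'D⟩, hcon⟩, hxa⟩⟩)
  obtain ⟨a, ha, hxa⟩ := mem_iUnion₂.1 hx₁
  obtain ⟨b, hb, hxb⟩ := mem_iUnion₂.1 hx₂
  have hab : a ≠ b := fun h => hb.2 (h ▸ ha.2)
  have hρ : a ⊓ b ∈ S := hS.face_mem a ha.1.1 _ (hS.inf_isFaceOf a ha.1.1 b hb.1.1)
  have hlt := coneDim_inf_lt hS ha.1.1 hb.1.1 (ha.1.2.1.trans hb.1.2.1.symm) hab
  have hge : ¬ coneDim (a ⊓ b) + 2 ≤ r := fun h =>
    hxW.2.2 _ ⟨a ⊓ b, ⟨hρ, h⟩, rfl⟩ (Submodule.subset_span ⟨hxa, hxb⟩)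
  refine hb.2 (ha.2.tail ⟨ha.1, hb.1, a ⊓ b, hρ, ?_, inf_le_left, inf_le_right, fun τ hτ hle => ?_⟩)
  · have := ha.1.2.1
    omega
  · exact hxW.2.1 ⟨τ, hτ⟩ (hle ⟨hxa, hxb⟩)

end Pool.Agent.MP_b9d149_co
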